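import Pool.Agent.H95.CG.Targets
import Mathlib.GroupTheory.FiniteAbelian.Duality

/-!
# (CH) counting characters of a finite abelian group with a nonnegative weight
-/

set_option autoImplicit false

open Complex

namespace Pool.Agent.H18.CG

open Pool.Agent.H95.CG Pool.Agent.H25.HK

/-- the sum over a group of characters of the values at one element -/
theorem sum_char {G : Type} [CommGroup G] [Fintype G] (H : Subgroup (G →* ℂˣ))
    [Fintype H] (g : G) :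
    (∑ ψ : H, ((ψ.1 g : ℂˣ) : ℂ)) = 0 ∨
      (∑ ψ : H, ((ψ.1 g : ℂˣ) : ℂ)) = (Fintype.card H : ℂ) := by
  by_cases h : ∀ ψ : H, ψ.1 g = 1
  · right
    simp [h]
  · left
    push Not at h
    obtain ⟨φ, hφ⟩ := h
    have h1 : (∑ ψ : H, ((ψ.1 g : ℂˣ) : ℂ)) = ((φ.1 g : ℂˣ) : ℂ) * ∑ ψ : H, ((ψ.1 g : ℂˣ) : ℂ) := by
      rw [Finset.mul_sum]
      refine (Fintype.sum_equiv (Equiv.mulLeft φ) _ _ ?_).symm
      intro ψ
      simp
    have h2 : (((φ.1 g : ℂˣ) : ℂ) - 1) * ∑ ψ : H, ((ψ.1 g : ℂˣ) : ℂ) = 0 := by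
      rw [sub_mul, ← h1]
      ring
    rcases mul_eq_zero.1 h2 with h3 | h3
    · exfalso
      apply hφ
      apply Units.ext
      simpa using sub_eq_zero.1 h3
    · exact h3

/-- orthogonality -/
theorem sum_all {G : Type} [CommGroup G] [Fintype G] [Fintype (G →* ℂˣ)] (g : G) (hg : g ≠ 1) :
    (∑ ψ : G →* ℂˣ, ((ψ g : ℂˣ) : ℂ)) = 0 := by
  obtain ⟨φ, hφ⟩ := CommGroup.exists_apply_ne_one_of_hasEnoughRootsOfUnity G ℂ hg
  have h1 : (∑ ψ : G →* ℂˣ, ((ψ g : ℂˣ) : ℂ)) =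
      ((φ g : ℂˣ) : ℂ) * ∑ ψ : G →* ℂˣ, ((ψ g : ℂˣ) : ℂ) := by
    rw [Finset.mul_sum]
    refine (Fintype.sum_equiv (Equiv.mulLeft φ) _ _ ?_).symm
    intro ψ
    simp
  have h2 : (((φ g : ℂˣ) : ℂ) - 1) * ∑ ψ : G →* ℂˣ, ((ψ g : ℂˣ) : ℂ) = 0 := by
    rw [sub_mul, ← h1]
    ring
  rcases mul_eq_zero.1 h2 with h3 | h3
  · exfalso
    apply hφ
    apply Units.ext
    simpa using sub_eq_zero.1 h3
  · exact h3

theorem conj_char {G : Type} [CommGroup G] [Fintype G] (ψ : G →* ℂˣ) (g : G) :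
    (starRingEnd ℂ) ((ψ g : ℂˣ) : ℂ) = ((ψ g⁻¹ : ℂˣ) : ℂ) := by
  have h1 : ‖((ψ g : ℂˣ) : ℂ)‖ = 1 := by
    have h2 : ((ψ g : ℂˣ) : ℂ) ^ (Fintype.card G) = 1 := by
      rw [← Units.val_pow_eq_pow_val, ← map_pow, pow_card_eq_one, map_one, Units.val_one]
    exact norm_eq_one_of_pow_eq_one h2 Fintype.card_ne_zero
  rw [map_inv, Units.val_inv_eq_inv_val, Complex.inv_def, Complex.normSq_eq_norm_sq, h1]
  simp

theorem pf_ch : T_CH := by
  intro G _ _ H J hJ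
  classical
  have : Finite (G →* ℂˣ) := inferInstance
  have : Fintype (G →* ℂˣ) := Fintype.ofFinite _
  have : Fintype H := Fintype.ofFinite _
  set A : (G →* ℂˣ) → ℂ := fun ψ => ∑ g, ((ψ g : ℂˣ) : ℂ) * ((J g : ℝ) : ℂ) with hA
  -- the sum over H
  have hS : (Fintype.card H : ℝ) * J 1 ≤ (∑ ψ : H, A ψ.1).re := by
    have e1 : (∑ ψ : H, A ψ.1) = ∑ g, (∑ ψ : H, ((ψ.1 g : ℂˣ) : ℂ)) * ((J g : ℝ) : ℂ) := by
      simp only [hA]
      rw [Finset.sum_comm]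
      refine Finset.sum_congr rfl fun g _ => ?_
      rw [Finset.sum_mul]
    rw [e1, Complex.re_sum]
    have h1 : ∀ g, 0 ≤ ((∑ ψ : H, ((ψ.1 g : ℂˣ) : ℂ)) * ((J g : ℝ) : ℂ)).re := by
      intro g
      rcases sum_char H g with h | h
      · rw [h]; simp
      · rw [h]
        have : ((Fintype.card H : ℂ) * ((J g : ℝ) : ℂ)).re = (Fintype.card H : ℝ) * J g := by
          rw [← Complex.ofReal_natCast, ← Complex.ofReal_mul, Complex.ofReal_re]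
        rw [this]
        exact mul_nonneg (Nat.cast_nonneg _) (hJ g)
    have h2 : (Fintype.card H : ℝ) * J 1 =
        ((∑ ψ : H, ((ψ.1 1 : ℂˣ) : ℂ)) * ((J 1 : ℝ) : ℂ)).re := by
      have : (∑ ψ : H, ((ψ.1 1 : ℂˣ) : ℂ)) = (Fintype.card H : ℂ) := by simp
      rw [this, ← Complex.ofReal_natCast, ← Complex.ofReal_mul, Complex.ofReal_re]
    rw [h2]
    exact Finset.single_le_sum (f := fun g =>
      ((∑ ψ : H, ((ψ.1 g : ℂˣ) : ℂ)) * ((J g : ℝ) : ℂ)).re) (fun g _ => h1 g) (Finset.mem_univ 1)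
  -- Parseval
  have hP : ∑ ψ : G →* ℂˣ, ‖A ψ‖ ^ 2 = Fintype.card G * ∑ g, J g ^ 2 := by
    have e0 : ((∑ ψ : G →* ℂˣ, ‖A ψ‖ ^ 2 : ℝ) : ℂ) =
        ∑ g, ∑ g', (∑ ψ : G →* ℂˣ, ((ψ (g * g'⁻¹) : ℂˣ) : ℂ)) * (((J g : ℝ) : ℂ) * ((J g' : ℝ) : ℂ)) := by
      rw [Complex.ofReal_sum]
      have e1 : ∀ ψ : G →* ℂˣ, ((‖A ψ‖ ^ 2 : ℝ) : ℂ) =
          ∑ g, ∑ g', ((ψ (g * g'⁻¹) : ℂˣ) : ℂ) * (((J g : ℝ) : ℂ) * ((J g' : ℝ) : ℂ)) := by
        intro ψ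
        rw [Complex.ofReal_pow, ← Complex.mul_conj']
        simp only [hA]
        rw [map_sum, Finset.sum_mul_sum]
        refine Finset.sum_congr rfl fun g _ => Finset.sum_congr rfl fun g' _ => ?_
        rw [map_mul, conj_char, Complex.conj_ofReal, map_mul, Units.val_mul]
        ring
      simp only [e1]
      rw [Finset.sum_comm]
      refine Finset.sum_congr rfl fun g _ => ?_
      rw [Finset.sum_comm]
      refine Finset.sum_congr rfl fun g' _ => ?_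
      rw [Finset.sum_mul]
    have e2 : ∀ g, ∑ g', (∑ ψ : G →* ℂˣ, ((ψ (g * g'⁻¹) : ℂˣ) : ℂ)) *
        (((J g : ℝ) : ℂ) * ((J g' : ℝ) : ℂ)) = ((Fintype.card G * J g ^ 2 : ℝ) : ℂ) := by
      intro g
      rw [Finset.sum_eq_single g]
      · have hc : Fintype.card (G →* ℂˣ) = Fintype.card G := by
          have := CommGroup.card_monoidHom_of_hasEnoughRootsOfUnity G ℂ
          rwa [Nat.card_eq_fintype_card, Nat.card_eq_fintype_card] at this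
        simp only [mul_inv_cancel, map_one, Units.val_one, Finset.sum_const, Finset.card_univ, hc,
          nsmul_eq_mul, mul_one]
        push_cast
        ring
      · intro g' _ hne
        rw [sum_all (g * g'⁻¹) (by rw [Ne, mul_inv_eq_one]; exact fun h => hne h.symm), zero_mul]
      · intro h
        exact absurd (Finset.mem_univ g) h
    have e3 : ((∑ ψ : G →* ℂˣ, ‖A ψ‖ ^ 2 : ℝ) : ℂ) = ((Fintype.card G * ∑ g, J g ^ 2 : ℝ) : ℂ) := by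
      rw [e0, Finset.sum_congr rfl fun g _ => e2 g, ← Complex.ofReal_sum, Finset.mul_sum]
    exact_mod_cast e3
  -- Cauchy-Schwarz
  set F : Finset (G →* ℂˣ) := Finset.univ.filter fun ψ => ψ ∈ H ∧ A ψ ≠ 0 with hF
  have hcard : Nat.card {ψ : G →* ℂˣ // ψ ∈ H ∧ A ψ ≠ 0} = F.card := by
    rw [Nat.card_eq_fintype_card, Fintype.card_subtype]
  have hsum : (∑ ψ : H, A ψ.1) = ∑ ψ ∈ F, A ψ := by
    have e1 : (∑ ψ : H, A ψ.1) = ∑ ψ ∈ Finset.univ.filter (fun ψ => ψ ∈ H), A ψ := by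
      symm
      apply Finset.sum_subtype
      intro x
      simp
    rw [e1, hF]
    symm
    apply Finset.sum_subset
    · intro ψ hψ
      simp only [Finset.mem_filter, Finset.mem_univ, true_and] at hψ ⊢
      exact hψ.1
    · intro ψ hψ hψ'
      simp only [Finset.mem_filter, Finset.mem_univ, true_and] at hψ hψ'
      by_contra hne
      exact hψ' ⟨hψ, hne⟩
  have hCS : (∑ ψ ∈ F, ‖A ψ‖) ^ 2 ≤ (F.card : ℝ) * ∑ ψ ∈ F, ‖A ψ‖ ^ 2 := by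
    exact sq_sum_le_card_mul_sum_sq
  have h1 : (Fintype.card H : ℝ) * J 1 ≤ ∑ ψ ∈ F, ‖A ψ‖ := by
    refine hS.trans ?_
    rw [hsum]
    exact (Complex.re_le_norm _).trans (norm_sum_le _ _)
  have h0 : 0 ≤ (Fintype.card H : ℝ) * J 1 := mul_nonneg (Nat.cast_nonneg _) (hJ 1)
  have h2 : ∑ ψ ∈ F, ‖A ψ‖ ^ 2 ≤ Fintype.card G * ∑ g, J g ^ 2 := by
    rw [← hP]
    exact Finset.sum_le_sum_of_subset_of_nonneg (Finset.subset_univ _) fun _ _ _ => sq_nonneg _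
  rw [Nat.card_eq_fintype_card]
  change _ ≤ (Nat.card {ψ : G →* ℂˣ // ψ ∈ H ∧ A ψ ≠ 0} : ℝ) * _
  rw [hcard]
  calc ((Fintype.card H : ℝ) * J 1) ^ 2 ≤ (∑ ψ ∈ F, ‖A ψ‖) ^ 2 := pow_le_pow_left₀ h0 h1 2
    _ ≤ (F.card : ℝ) * ∑ ψ ∈ F, ‖A ψ‖ ^ 2 := hCS
    _ ≤ _ := mul_le_mul_of_nonneg_left h2 (Nat.cast_nonneg _)

end Pool.Agent.H18.CG
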