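import Pool.Agent.H95.CG.PC

/-!
# (CO) the theta function is bounded by the number of short vectors
-/

set_option autoImplicit false

open MeasureTheory Set Filter Complex

namespace Pool.Agent.H18.CG

open Pool.Agent.H95.CG Pool.Agent.H25.HK

theorem qz_neg {ι : Type} [Fintype ι] (S : Matrix ι ι ℝ) (m : ι → ℤ) : qz S (-m) = qz S m := by
  unfold qz qf
  refine Finset.sum_congr rfl fun i _ => Finset.sum_congr rfl fun j _ => ?_
  simp

theorem qz_zero {ι : Type} [Fintype ι] (S : Matrix ι ι ℝ) : qz S (0 : ι → ℤ) = 0 := by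
  unfold qz qf
  simp

theorem qz_nonneg {ι : Type} [Fintype ι] {S : Matrix ι ι ℝ} (hS : S.PosDef) (m : ι → ℤ) :
    0 ≤ qz S m := by
  obtain ⟨c, hc, h⟩ := Pool.Agent.H16.HK.qf_lower hS
  refine le_trans ?_ (h fun i => (m i : ℝ))
  exact mul_nonneg hc.le (Finset.sum_nonneg fun i _ => sq_nonneg _)

/-- covering of a big ball by translates of a small one -/
theorem cover (hPK : T_PK) {ι : Type} [Fintype ι] [DecidableEq ι] {S : Matrix ι ι ℝ}
    (hS : S.PosDef) (j : ℕ) (hj : 1 ≤ j) (r : ℝ) (hr : 0 < r) :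
    ((finite_lt hS ((j : ℝ) ^ 2 * r)).toFinset.card : ℝ) ≤
      (1 + 2 * (j : ℝ)) ^ Fintype.card ι * cnt S r := by
  classical
  set A := (finite_lt hS ((j : ℝ) ^ 2 * r)).toFinset with hA
  set B := (finite_lt hS r).toFinset with hB
  have hmA : ∀ m, m ∈ A ↔ qz S m < (j : ℝ) ^ 2 * r := fun m => by
    rw [hA, Set.Finite.mem_toFinset, Set.mem_ofPred_eq]
  have hmB : ∀ m, m ∈ B ↔ qz S m < r := fun m => by
    rw [hB, Set.Finite.mem_toFinset, Set.mem_ofPred_eq]
  have hj' : (1 : ℝ) ≤ j := by exact_mod_cast hj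
  let P : Finset (ι → ℤ) → Prop := fun s => ∀ m ∈ s, ∀ m' ∈ s, m ≠ m' → r ≤ qz S (m - m')
  obtain ⟨s, hs, hmax⟩ := (A.powerset.filter P).exists_max_image Finset.card
    ⟨∅, by simp [P]⟩
  rw [Finset.mem_filter, Finset.mem_powerset] at hs
  have hcov : ∀ m ∈ A, ∃ m' ∈ s, qz S (m - m') < r := by
    intro m hm
    by_contra hcon
    push Not at hcon
    have hms : m ∉ s := fun h => by
      have := hcon m h
      rw [sub_self, qz_zero] at this
      linarith
    have h1 : insert m s ∈ A.powerset.filter P := by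
      rw [Finset.mem_filter, Finset.mem_powerset]
      refine ⟨Finset.insert_subset hm hs.1, ?_⟩
      intro a ha b hb hne
      rcases Finset.mem_insert.1 ha with ha1 | ha1
      · rcases Finset.mem_insert.1 hb with hb1 | hb1
        · exact absurd (ha1.trans hb1.symm) hne
        · rw [ha1]
          exact hcon b hb1
      · rcases Finset.mem_insert.1 hb with hb1 | hb1
        · rw [hb1, ← neg_sub, qz_neg]
          exact hcon a ha1
        · exact hs.2 a ha1 b hb1 hne
    have h2 := hmax _ h1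
    rw [Finset.card_insert_of_notMem hms] at h2
    omega
  have hsub : A ⊆ s.biUnion fun m' => B.image fun m => m + m' := by
    intro m hm
    obtain ⟨m', hm', hlt⟩ := hcov m hm
    rw [Finset.mem_biUnion]
    refine ⟨m', hm', ?_⟩
    rw [Finset.mem_image]
    exact ⟨m - m', (hmB _).2 hlt, sub_add_cancel _ _⟩
  have hcard : A.card ≤ s.card * B.card := by
    refine (Finset.card_le_card hsub).trans ?_
    refine Finset.card_biUnion_le_card_mul _ _ _ fun m' _ => ?_
    exact Finset.card_image_le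
  have hs1 : (s.card : ℝ) ≤ (1 + 2 * (j : ℝ)) ^ Fintype.card ι := by
    have h := pack_mat hPK hS s ⊤ ((j : ℝ) ^ 2 * r) r (by positivity) hr
      (fun m hm => ((hmA m).1 (hs.1 hm)).le) hs.2 (fun _ _ => Submodule.mem_top)
    rw [finrank_top, Module.finrank_fintype_fun_eq_card] at h
    have e1 : (j : ℝ) ^ 2 * r / r = (j : ℝ) ^ 2 := by field_simp
    rw [e1, Real.sqrt_sq (by linarith)] at h
    exact h
  have hcnt : (cnt S r : ℝ) = B.card := by
    have : cnt S r = B.card := Nat.card_eq_card_finite_toFinset (finite_lt hS r)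
    rw [this]
  rw [hcnt]
  calc (A.card : ℝ) ≤ (s.card : ℝ) * B.card := by exact_mod_cast hcard
    _ ≤ _ := mul_le_mul_of_nonneg_right hs1 (Nat.cast_nonneg _)

theorem summ (n : ℕ) : Summable fun k : ℕ =>
    Real.exp (-Real.pi * (k : ℝ) ^ 2) * (1 + 2 * ((k + 1 : ℕ) : ℝ)) ^ n := by
  have h := Real.summable_pow_mul_exp_neg_nat_mul n (r := 1) one_pos
  have h1 := (summable_nat_add_iff 1).2 h
  have h2 := h1.mul_left (3 ^ n * Real.exp 1)
  refine Summable.of_nonneg_of_le (fun k => by positivity) (fun k => ?_) h2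
  have hk : (0 : ℝ) ≤ k := Nat.cast_nonneg k
  have e1 : Real.exp (-Real.pi * (k : ℝ) ^ 2) ≤ Real.exp 1 * Real.exp (-1 * ((k + 1 : ℕ) : ℝ)) := by
    rw [← Real.exp_add]
    apply Real.exp_le_exp.2
    push_cast
    have hpi := Real.pi_gt_three
    have : (k : ℝ) ≤ (k : ℝ) ^ 2 := by
      rcases Nat.eq_zero_or_pos k with h | h
      · simp [h]
      · have : (1 : ℝ) ≤ k := by exact_mod_cast h
        nlinarith
    nlinarith [sq_nonneg (k : ℝ)]
  have e2 : (1 + 2 * ((k + 1 : ℕ) : ℝ)) ^ n ≤ 3 ^ n * ((k + 1 : ℕ) : ℝ) ^ n := by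
    rw [← mul_pow]
    apply pow_le_pow_left₀ (by positivity)
    push_cast
    linarith
  calc Real.exp (-Real.pi * (k : ℝ) ^ 2) * (1 + 2 * ((k + 1 : ℕ) : ℝ)) ^ n
      ≤ (Real.exp 1 * Real.exp (-1 * ((k + 1 : ℕ) : ℝ))) * (3 ^ n * ((k + 1 : ℕ) : ℝ) ^ n) :=
        mul_le_mul e1 e2 (by positivity) (by positivity)
    _ = _ := by ring

theorem co_main (hPK : T_PK) : T_CO := by
  intro n
  set w : ℕ → ℝ := fun k => Real.exp (-Real.pi * (k : ℝ) ^ 2) * (1 + 2 * ((k + 1 : ℕ) : ℝ)) ^ n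
    with hw
  have hsum : Summable w := summ n
  have hw0 : ∀ k, 0 < w k := fun k => by
    simp only [hw]
    positivity
  refine ⟨∑' k, w k, hsum.tsum_pos (fun k => (hw0 k).le) 0 (hw0 0), ?_⟩
  intro ι _ _ S hn hS t ht
  classical
  have hr : 0 < t⁻¹ := inv_pos.2 ht
  set c : ℝ := (cnt S t⁻¹ : ℝ) with hc
  have hc0 : 0 ≤ c := Nat.cast_nonneg _
  have hC0 : 0 ≤ (∑' k, w k) * c := mul_nonneg (tsum_nonneg fun k => (hw0 k).le) hc0
  unfold ts
  refine tsum_le_of_sum_le' hC0 fun F => ?_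
  let κ : (ι → ℤ) → ℕ := fun m => ⌊Real.sqrt (t * qz S m)⌋₊
  have hκ1 : ∀ m, (κ m : ℝ) ^ 2 ≤ t * qz S m := by
    intro m
    have h0 : 0 ≤ t * qz S m := mul_nonneg ht.le (qz_nonneg hS m)
    have h1 : (κ m : ℝ) ≤ Real.sqrt (t * qz S m) := Nat.floor_le (Real.sqrt_nonneg _)
    calc (κ m : ℝ) ^ 2 ≤ Real.sqrt (t * qz S m) ^ 2 := pow_le_pow_left₀ (Nat.cast_nonneg _) h1 2
      _ = _ := Real.sq_sqrt h0
  have hκ2 : ∀ m, qz S m < (((κ m + 1 : ℕ) : ℝ)) ^ 2 * t⁻¹ := by
    intro m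
    have h0 : 0 ≤ t * qz S m := mul_nonneg ht.le (qz_nonneg hS m)
    have h1 : Real.sqrt (t * qz S m) < ((κ m + 1 : ℕ) : ℝ) := by
      push_cast
      exact Nat.lt_floor_add_one _
    have h2 : t * qz S m < (((κ m + 1 : ℕ) : ℝ)) ^ 2 := by
      rw [← Real.sq_sqrt h0]
      exact pow_lt_pow_left₀ h1 (Real.sqrt_nonneg _) two_ne_zero
    rw [← div_eq_mul_inv, lt_div_iff₀ ht, mul_comm]
    exact h2
  calc ∑ m ∈ F, Real.exp (-Real.pi * (t * qz S m))
      ≤ ∑ m ∈ F, Real.exp (-Real.pi * (κ m : ℝ) ^ 2) := by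
        refine Finset.sum_le_sum fun m _ => Real.exp_le_exp.2 ?_
        have := hκ1 m
        nlinarith [Real.pi_pos]
    _ = ∑ k ∈ F.image κ, ∑ m ∈ F.filter (fun m => κ m = k), Real.exp (-Real.pi * (κ m : ℝ) ^ 2) :=
        (Finset.sum_fiberwise_of_maps_to (fun m hm => Finset.mem_image_of_mem κ hm) _).symm
    _ ≤ ∑ k ∈ F.image κ, w k * c := by
        refine Finset.sum_le_sum fun k _ => ?_
        have h1 : ∑ m ∈ F.filter (fun m => κ m = k), Real.exp (-Real.pi * (κ m : ℝ) ^ 2) =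
            (F.filter (fun m => κ m = k)).card * Real.exp (-Real.pi * (k : ℝ) ^ 2) := by
          rw [Finset.sum_congr rfl (g := fun _ => Real.exp (-Real.pi * (k : ℝ) ^ 2)) ?_]
          · rw [Finset.sum_const, nsmul_eq_mul]
          · intro m hm
            rw [(Finset.mem_filter.1 hm).2]
        have h2 : ((F.filter (fun m => κ m = k)).card : ℝ) ≤
            (1 + 2 * ((k + 1 : ℕ) : ℝ)) ^ n * c := by
          have h3 := cover hPK hS (k + 1) (Nat.le_add_left 1 k) t⁻¹ hr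
          rw [hn] at h3
          refine le_trans ?_ h3
          have : F.filter (fun m => κ m = k) ⊆
              (finite_lt hS (((k + 1 : ℕ) : ℝ) ^ 2 * t⁻¹)).toFinset := by
            intro m hm
            rw [Set.Finite.mem_toFinset, Set.mem_ofPred_eq]
            have h4 := hκ2 m
            rw [(Finset.mem_filter.1 hm).2] at h4
            exact h4
          exact_mod_cast Finset.card_le_card this
        rw [h1]
        have h5 : 0 ≤ Real.exp (-Real.pi * (k : ℝ) ^ 2) := (Real.exp_pos _).le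
        calc ((F.filter (fun m => κ m = k)).card : ℝ) * Real.exp (-Real.pi * (k : ℝ) ^ 2)
            ≤ ((1 + 2 * ((k + 1 : ℕ) : ℝ)) ^ n * c) * Real.exp (-Real.pi * (k : ℝ) ^ 2) :=
              mul_le_mul_of_nonneg_right h2 h5
          _ = w k * c := by simp only [hw]; ring
    _ = (∑ k ∈ F.image κ, w k) * c := by rw [Finset.sum_mul]
    _ ≤ (∑' k, w k) * c :=
        mul_le_mul_of_nonneg_right (hsum.sum_le_tsum _ fun k _ => (hw0 k).le) hc0

theorem pf_co (hPK : T_PK) (_hPC : T_PC) : T_CO := co_main hPK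

end Pool.Agent.H18.CG
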